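import Pool.Agent.Q5.SG.Stm

/-!
# Project SG of helper5: job PW (distance from `1` of `p`-powers)
-/

set_option autoImplicit false

namespace Pool.Agent.Q285.SG

open Finset

section

variable {p : ℕ} [Fact p.Prime]

theorem norm_p : ‖(p : ℂ_[p])‖ = (p : ℝ)⁻¹ := by
  have h1 : (p : ℂ_[p]) = algebraMap ℚ_[p] ℂ_[p] (p : ℚ_[p]) := by rw [map_natCast]
  rw [h1, norm_algebraMap', Padic.norm_p]

theorem norm_nat_le (n : ℕ) : ‖(n : ℂ_[p])‖ ≤ 1 := by
  have h1 : (n : ℂ_[p]) = algebraMap ℚ_[p] ℂ_[p] (n : ℚ_[p]) := by rw [map_natCast]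
  rw [h1, norm_algebraMap']
  exact_mod_cast Padic.norm_int_le_one n

theorem norm_dvd_le {n : ℕ} (h : p ∣ n) : ‖(n : ℂ_[p])‖ ≤ (p : ℝ)⁻¹ := by
  obtain ⟨k, rfl⟩ := h
  rw [Nat.cast_mul, norm_mul, norm_p]
  exact mul_le_of_le_one_right (by positivity) (norm_nat_le k)

theorem pinv_lt : (p : ℝ)⁻¹ < 1 := by
  have hp : (1 : ℝ) < p := by exact_mod_cast (Fact.out : p.Prime).one_lt
  exact inv_lt_one_of_one_lt₀ hp

theorem pinv_pos : 0 < (p : ℝ)⁻¹ := by
  have hp : (0 : ℝ) < p := by exact_mod_cast (Fact.out : p.Prime).pos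
  positivity

/-- one step -/
theorem pw_one (hp2 : p ≠ 2) (z : ℂ_[p]) (hz : ‖z - 1‖ ≤ (p : ℝ)⁻¹) :
    ‖z ^ p - 1‖ = (p : ℝ)⁻¹ * ‖z - 1‖ := by
  obtain ⟨y, hy⟩ : ∃ y, y = z - 1 := ⟨_, rfl⟩
  have hzy : z = 1 + y := by rw [hy]; ring
  rw [← hy] at hz ⊢
  have hp1 := pinv_lt (p := p)
  have hp0 := pinv_pos (p := p)
  have hz1 : ‖z‖ ≤ 1 := by
    rw [hzy]
    refine (IsUltrametricDist.norm_add_le_max _ _).trans (max_le (by rw [norm_one]) (by linarith))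
  have key : ∀ i : ℕ, ‖z ^ i - 1 - (i : ℂ_[p]) * y‖ ≤ ‖y‖ ^ 2 := by
    intro i
    induction i with
    | zero => simp
    | succ i ih =>
      have e1 : z ^ (i + 1) - 1 - ((i + 1 : ℕ) : ℂ_[p]) * y =
          z * (z ^ i - 1 - (i : ℂ_[p]) * y) + (i : ℂ_[p]) * y ^ 2 := by
        rw [hzy]
        push_cast
        ring
      rw [e1]
      refine (IsUltrametricDist.norm_add_le_max _ _).trans (max_le ?_ ?_)
      · rw [norm_mul]
        exact (mul_le_of_le_one_left (norm_nonneg _) hz1).trans ih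
      · rw [norm_mul, norm_pow]
        exact mul_le_of_le_one_left (by positivity) (norm_nat_le i)
  have hfac : z ^ p - 1 = y * ∑ i ∈ range p, z ^ i := by
    rw [hy, mul_comm, geom_sum_mul]
  obtain ⟨m, hm⟩ : ∃ m, p = 2 * m + 1 := by
    rcases (Fact.out : p.Prime).eq_two_or_odd' with h | h
    · exact absurd h hp2
    · exact h
  have hsum : ∑ i ∈ range p, (i : ℂ_[p]) = (p : ℂ_[p]) * m := by
    have h1 := Finset.sum_range_id_mul_two p
    have h2 : (∑ i ∈ range p, i) * 2 = (p * m) * 2 := by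
      rw [h1]
      have : p - 1 = 2 * m := by omega
      rw [this]
      ring
    have h3 : ∑ i ∈ range p, i = p * m := Nat.eq_of_mul_eq_mul_right two_pos h2
    have h4 := congrArg (fun n : ℕ => (n : ℂ_[p])) h3
    push_cast at h4
    exact h4
  have hS : ∑ i ∈ range p, z ^ i = (p : ℂ_[p]) +
      ((p : ℂ_[p]) * m * y + ∑ i ∈ range p, (z ^ i - 1 - (i : ℂ_[p]) * y)) := by
    rw [Finset.sum_sub_distrib, Finset.sum_sub_distrib, ← Finset.sum_mul, hsum]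
    simp
  have hr : ‖∑ i ∈ range p, (z ^ i - 1 - (i : ℂ_[p]) * y)‖ ≤ ‖y‖ ^ 2 :=
    IsUltrametricDist.norm_sum_le_of_forall_le_of_nonneg (by positivity) fun i _ => key i
  have hy2 : ‖y‖ ^ 2 < (p : ℝ)⁻¹ := by
    have h1 := norm_nonneg y
    calc ‖y‖ ^ 2 ≤ ((p : ℝ)⁻¹) ^ 2 := pow_le_pow_left₀ h1 hz 2
      _ = (p : ℝ)⁻¹ * (p : ℝ)⁻¹ := sq _
      _ < (p : ℝ)⁻¹ * 1 := mul_lt_mul_of_pos_left hp1 hp0
      _ = _ := mul_one _
  have hsmall : ‖(p : ℂ_[p]) * m * y + ∑ i ∈ range p, (z ^ i - 1 - (i : ℂ_[p]) * y)‖ < (p : ℝ)⁻¹ := by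
    refine lt_of_le_of_lt (IsUltrametricDist.norm_add_le_max _ _) (max_lt ?_ (lt_of_le_of_lt hr hy2))
    rw [norm_mul, norm_mul, norm_p]
    have h1 := norm_nat_le (p := p) m
    calc (p : ℝ)⁻¹ * ‖(m : ℂ_[p])‖ * ‖y‖ ≤ (p : ℝ)⁻¹ * 1 * (p : ℝ)⁻¹ := by gcongr
      _ < (p : ℝ)⁻¹ * 1 * 1 := mul_lt_mul_of_pos_left hp1 (by positivity)
      _ = _ := by ring
  have hnorm : ‖∑ i ∈ range p, z ^ i‖ = (p : ℝ)⁻¹ := by
    rw [hS, IsUltrametricDist.norm_add_eq_max_of_norm_ne_norm (by rw [norm_p]; exact hsmall.ne'), norm_p,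
      max_eq_left hsmall.le]
  rw [hfac, norm_mul, hnorm, mul_comm]

end

/-- **Job PW.** -/
theorem pw : Pool.Agent.Q5.SG.S_PW := by
  intro p _ hp2 z hz s
  induction s with
  | zero => simp
  | succ s ih =>
    have hp1 := pinv_lt (p := p)
    have hp0 := pinv_pos (p := p)
    have h1 : ‖z ^ p ^ s - 1‖ ≤ (p : ℝ)⁻¹ := by
      rw [ih]
      exact (mul_le_of_le_one_left (norm_nonneg _) (pow_le_one₀ hp0.le hp1.le)).trans hz
    rw [pow_succ p s, pow_mul, pw_one hp2 _ h1, ih]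
    ring

/-- **Job RT.** -/
theorem rt : Pool.Agent.Q5.SG.S_RT := by
  intro p _ z hz s
  have hp1 := pinv_lt (p := p)
  have step : ∀ w : ℂ_[p], ‖w‖ ≤ 1 → ‖w ^ p - 1‖ < 1 → ‖w - 1‖ < 1 := by
    intro w hw h
    obtain ⟨y, hy⟩ : ∃ y, y = w - 1 := ⟨_, rfl⟩
    have hwy : w = y + 1 := by rw [hy]; ring
    have hy1 : ‖y‖ ≤ 1 := by
      rw [hy, sub_eq_add_neg]
      refine (IsUltrametricDist.norm_add_le_max _ _).trans (max_le hw (by rw [norm_neg, norm_one]))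
    rw [← hy]
    obtain ⟨k, hk⟩ : ∃ k, p = k + 1 := ⟨p - 1, by have := (Fact.out : p.Prime).pos; omega⟩
    have e1 : w ^ p = y ^ p + ∑ i ∈ range k, y ^ (i + 1) * ((p.choose (i + 1) : ℕ) : ℂ_[p]) + 1 := by
      rw [hwy, add_pow, Finset.sum_range_succ]
      have h1 : ∑ x ∈ range p, y ^ x * 1 ^ (p - x) * ((p.choose x : ℕ) : ℂ_[p]) =
          ∑ i ∈ range k, y ^ (i + 1) * ((p.choose (i + 1) : ℕ) : ℂ_[p]) + 1 := by
        have h2 : range p = range (k + 1) := by rw [hk]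
        rw [h2, Finset.sum_range_succ']
        simp
      rw [h1]
      simp
      ring
    have e2 : y ^ p = (w ^ p - 1) - ∑ i ∈ range k, y ^ (i + 1) * ((p.choose (i + 1) : ℕ) : ℂ_[p]) := by
      rw [e1]
      ring
    have h2 : ‖∑ i ∈ range k, y ^ (i + 1) * ((p.choose (i + 1) : ℕ) : ℂ_[p])‖ ≤ (p : ℝ)⁻¹ := by
      refine IsUltrametricDist.norm_sum_le_of_forall_le_of_nonneg (pinv_pos (p := p)).le fun i hi => ?_
      rw [Finset.mem_range] at hi
      rw [norm_mul, norm_pow]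
      have h3 : p ∣ p.choose (i + 1) := (Fact.out : p.Prime).dvd_choose_self (by omega) (by omega)
      exact (mul_le_of_le_one_left (norm_nonneg _) (pow_le_one₀ (norm_nonneg _) hy1)).trans (norm_dvd_le h3)
    have h3 : ‖y‖ ^ p < 1 := by
      rw [← norm_pow, e2, sub_eq_add_neg]
      refine lt_of_le_of_lt (IsUltrametricDist.norm_add_le_max _ _) (max_lt h ?_)
      rw [norm_neg]
      exact lt_of_le_of_lt h2 hp1
    by_contra h4
    exact absurd h3 (not_lt.2 (one_le_pow₀ (not_lt.1 h4)))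
  induction s with
  | zero => intro h; simpa using h
  | succ s ih =>
    intro h
    apply ih
    apply step
    · rw [norm_pow]
      exact pow_le_one₀ (norm_nonneg _) hz
    · rw [← pow_mul, ← pow_succ]
      exact h

end Pool.Agent.Q285.SG
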