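import Pool.Agent.Q5.SG.Stm
import Pool.Agent.Q285.SG.PW

/-!
# Project SG of helper5: jobs EX, IT, PS, CR
-/

set_option autoImplicit false
set_option linter.all false

namespace Pool.Agent.Q285.SG

open Finset NumberField IsDedekindDomain
open Pool.Agent.Q5.SG Pool.Agent.Y18.LC

/-- embeddings extend -/
theorem ext_emb {p : ℕ} [Fact p.Prime] {E H : Type} [Field E] [NumberField E] [Field H] [NumberField H] [Algebra E H]
    (σ : E →+* ℂ_[p]) : ∃ τ : H →+* ℂ_[p], τ.comp (algebraMap E H) = σ := by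
  letI : Algebra E ℂ_[p] := σ.toAlgebra
  have : Module.Finite E H := Module.Finite.of_restrictScalars_finite ℚ E H
  have : Algebra.IsAlgebraic E H := Algebra.IsAlgebraic.of_finite E H
  let f : H →ₐ[E] ℂ_[p] := IsAlgClosed.lift
  exact ⟨f.toRingHom, f.comp_algebraMap⟩

/-- **Job EX.** -/
theorem ex : S_EX := by
  intro p _ K E H _ _ _ _ _ _ _ _ _ S n x
  constructor
  · intro h σ hσ
    obtain ⟨τ, hτ⟩ := ext_emb (H := H) σ
    have h1 : τ.comp (algebraMap K H) = σ.comp (algebraMap K E) := by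
      rw [← hτ, RingHom.comp_assoc, ← IsScalarTower.algebraMap_eq K E H]
    have h2 := h τ (by rw [h1]; exact hσ)
    have h3 : τ (algebraMap E H x) = σ x := by rw [← hτ]; rfl
    rw [h3] at h2
    exact h2
  · intro h τ hτ
    have h1 : (τ.comp (algebraMap E H)).comp (algebraMap K E) = τ.comp (algebraMap K H) := by
      rw [RingHom.comp_assoc, ← IsScalarTower.algebraMap_eq K E H]
    exact h (τ.comp (algebraMap E H)) (by rw [h1]; exact hτ)

/-- **Job IT.** -/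
theorem it : J_IT := by
  intro hSM hPW hRT p _ hp2 K _ _ hun S 𝔮 n₀ hC s hs
  induction s with
  | zero => omega
  | succ s ih =>
    intro a ha hcl
    have hp0 := pinv_pos (p := p)
    have hp1 := pinv_lt (p := p)
    have hpp : 0 < p := (Fact.out : p.Prime).pos
    obtain ⟨b, hb⟩ := hC a ha (hcl.mono (by omega))
    have hbQ : b ∈ QU 𝔮 := by
      intro v hv
      have h1 := ha v hv
      rw [← hb, Units.val_pow_eq_pow_val, map_pow] at h1
      exact (pow_eq_one_iff.1 h1).resolve_right hpp.ne'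
    have hbcl : Cl S (n₀ + s) (b : K) := by
      intro σ hσ
      have h1 := hcl σ hσ
      have h2 : σ ((a : Kˣ) : K) = σ (b : K) ^ p := by
        rw [← hb, Units.val_pow_eq_pow_val, map_pow]
      rw [h2] at h1
      have h3 : ((p : ℝ)⁻¹) ^ (n₀ + (s + 1)) < 1 := pow_lt_one₀ hp0.le hp1 (by omega)
      have h4 : ‖σ (b : K) ^ p‖ = 1 := norm_of_sub_one (lt_of_le_of_lt h1 h3)
      have h5 : ‖σ (b : K)‖ = 1 := by
        rw [norm_pow] at h4
        exact (pow_eq_one_iff_of_nonneg (norm_nonneg _) hpp.ne').1 h4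
      have h6 : ‖σ (b : K) - 1‖ < 1 := by
        refine hRT p (σ (b : K)) h5.le 1 ?_
        rw [pow_one]
        exact lt_of_le_of_lt h1 h3
      have h7 : ‖σ (b : K) - 1‖ ≤ (p : ℝ)⁻¹ := by
        have h8 := hSM p K hun σ ((b : K) - 1)
        rw [map_sub, map_one] at h8
        exact h8 h6
      have h9 := hPW p hp2 (σ (b : K)) h7 1
      rw [pow_one, pow_one] at h9
      rw [h9, show n₀ + (s + 1) = (n₀ + s) + 1 by ring, pow_succ, mul_comm] at h1
      exact le_of_mul_le_mul_right h1 hp0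
    rcases Nat.eq_zero_or_pos s with h0 | h0
    · subst h0
      exact ⟨b, hbQ, by rw [zero_add, pow_one]; exact hb⟩
    · obtain ⟨c, hc, hcb⟩ := ih h0 b hbQ hbcl
      exact ⟨c, hc, by rw [pow_succ, pow_mul, hcb, hb]⟩

section

variable {p : ℕ} [Fact p.Prime] {E : Type} [Field E] [NumberField E]

theorem s_add (σ : E →+* ℂ_[p]) (a b : 𝓞 E) : σ ((a + b : 𝓞 E) : E) = σ (a : E) + σ (b : E) :=
  map_add σ (a : E) (b : E)

theorem s_mul (σ : E →+* ℂ_[p]) (a b : 𝓞 E) : σ ((a * b : 𝓞 E) : E) = σ (a : E) * σ (b : E) :=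
  map_mul σ (a : E) (b : E)

theorem s_zero (σ : E →+* ℂ_[p]) : σ ((0 : 𝓞 E) : E) = 0 := map_zero σ

theorem s_one (σ : E →+* ℂ_[p]) : σ ((1 : 𝓞 E) : E) = 1 := map_one σ

theorem s_nat (σ : E →+* ℂ_[p]) (n : ℕ) : σ ((n : 𝓞 E) : E) = n := by
  have h : ((n : 𝓞 E) : E) = (n : E) := by simp
  rw [h, map_natCast]

/-- the integers whose image has norm at most `t` -/
def IdL (σ : E →+* ℂ_[p]) (t : ℝ) (ht : 0 ≤ t) : Ideal (𝓞 E) where
  carrier := {x | ‖σ (x : E)‖ ≤ t}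
  add_mem' {a b} ha hb := by
    change ‖σ ((a + b : 𝓞 E) : E)‖ ≤ t
    rw [s_add]
    exact (IsUltrametricDist.norm_add_le_max _ _).trans (max_le ha hb)
  zero_mem' := by
    change ‖σ ((0 : 𝓞 E) : E)‖ ≤ t
    rw [s_zero, norm_zero]
    exact ht
  smul_mem' c x hx := by
    change ‖σ ((c * x : 𝓞 E) : E)‖ ≤ t
    rw [s_mul, norm_mul]
    exact (mul_le_of_le_one_left (norm_nonneg _) (norm_int_le σ c)).trans hx

/-- the prime ideal of an embedding -/
def PI (σ : E →+* ℂ_[p]) : Ideal (𝓞 E) where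
  carrier := {x | ‖σ (x : E)‖ < 1}
  add_mem' {a b} ha hb := by
    change ‖σ ((a + b : 𝓞 E) : E)‖ < 1
    rw [s_add]
    exact lt_of_le_of_lt (IsUltrametricDist.norm_add_le_max _ _) (max_lt ha hb)
  zero_mem' := by
    change ‖σ ((0 : 𝓞 E) : E)‖ < 1
    rw [s_zero, norm_zero]
    exact one_pos
  smul_mem' c x hx := by
    change ‖σ ((c * x : 𝓞 E) : E)‖ < 1
    rw [s_mul, norm_mul]
    exact lt_of_le_of_lt (mul_le_of_le_one_left (norm_nonneg _) (norm_int_le σ c)) hx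

theorem mem_PI {σ : E →+* ℂ_[p]} {x : 𝓞 E} : x ∈ PI σ ↔ ‖σ (x : E)‖ < 1 := Iff.rfl

theorem PI_prime (σ : E →+* ℂ_[p]) : (PI σ).IsPrime := by
  constructor
  · intro h
    have h1 : (1 : 𝓞 E) ∈ PI σ := by rw [h]; trivial
    rw [mem_PI, s_one, norm_one] at h1
    exact lt_irrefl _ h1
  · intro x y hxy
    rw [mem_PI, s_mul, norm_mul] at hxy
    by_contra hcon
    push Not at hcon
    have h1 : 1 ≤ ‖σ (x : E)‖ := not_lt.1 hcon.1
    have h2 : 1 ≤ ‖σ (y : E)‖ := not_lt.1 hcon.2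
    exact absurd hxy (not_lt.2 (one_le_mul_of_one_le_of_one_le h1 h2))

theorem p_mem_PI (σ : E →+* ℂ_[p]) : (p : 𝓞 E) ∈ PI σ := by
  rw [mem_PI, s_nat, norm_p]
  exact pinv_lt

theorem PI_max (σ : E →+* ℂ_[p]) : (PI σ).IsMaximal := by
  refine (PI_prime σ).isMaximal ?_
  intro h
  have h1 := p_mem_PI σ
  rw [h, Submodule.mem_bot] at h1
  have h2 : (p : 𝓞 E) ≠ 0 := by exact_mod_cast (Fact.out : p.Prime).ne_zero
  exact h2 h1

/-- powers of the prime ideal are small -/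
theorem PI_pow (σ : E →+* ℂ_[p]) (ε : ℝ) (hε : 0 < ε) : ∃ n₀ : ℕ, ∀ n, n₀ ≤ n → ∀ x ∈ PI σ ^ n,
    ‖σ (x : E)‖ ≤ ε := by
  obtain ⟨s, hs⟩ := (isNoetherian_def.1 (inferInstance : IsNoetherian (𝓞 E) (𝓞 E))) (PI σ)
  obtain ⟨r, hr0, hr1, hr⟩ : ∃ r : ℝ, 0 ≤ r ∧ r < 1 ∧ ∀ g ∈ s, ‖σ (g : E)‖ ≤ r := by
    have hg : ∀ g ∈ s, ‖σ (g : E)‖ < 1 := by
      intro g hg
      have h1 : g ∈ PI σ := by
        rw [← hs]
        exact Submodule.subset_span hg
      exact h1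
    rcases s.eq_empty_or_nonempty with h | h
    · exact ⟨0, le_rfl, one_pos, by rw [h]; simp⟩
    · obtain ⟨g0, hg0, hmax⟩ := Finset.exists_max_image s (fun g => ‖σ (g : E)‖) h
      exact ⟨‖σ (g0 : E)‖, norm_nonneg _, hg g0 hg0, hmax⟩
  have hle : PI σ ≤ IdL σ r hr0 := by
    rw [← hs, Submodule.span_le]
    exact fun g hg => hr g hg
  have hpow : ∀ n : ℕ, IdL σ r hr0 ^ n ≤ IdL σ (r ^ n) (by positivity) := by
    intro n
    induction n with
    | zero =>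
      intro x _
      change ‖σ (x : E)‖ ≤ r ^ 0
      rw [pow_zero]
      exact norm_int_le σ x
    | succ n ih =>
      rw [pow_succ]
      refine (Ideal.mul_mono_left ih).trans ?_
      rw [Ideal.mul_le]
      intro x hx y hy
      change ‖σ ((x * y : 𝓞 E) : E)‖ ≤ r ^ (n + 1)
      rw [s_mul, norm_mul, pow_succ]
      exact mul_le_mul hx hy (norm_nonneg _) (by positivity)
  obtain ⟨n₀, hn₀⟩ := exists_pow_lt_of_lt_one hε hr1
  refine ⟨n₀, fun n hn x hx => ?_⟩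
  have h1 : x ∈ IdL σ (r ^ n) (by positivity) := hpow n (Ideal.pow_right_mono hle n hx)
  exact (h1 : ‖σ (x : E)‖ ≤ r ^ n).trans ((pow_le_pow_of_le_one hr0 hr1.le hn).trans hn₀.le)

end

/-- **Job PS.** -/
theorem ps : S_PS := by
  intro p _ E _ _ v hv
  classical
  by_contra hcon
  push Not at hcon
  have hne : ∀ σ : E →+* ℂ_[p], ¬ v.asIdeal ≤ PI σ := by
    intro σ hle
    have h1 : v.asIdeal = PI σ := v.isMaximal.eq_of_le (PI_prime σ).ne_top hle
    obtain ⟨x, hx⟩ := hcon σ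
    rw [h1] at hx
    rcases hx with ⟨h2, h3⟩ | ⟨h2, h3⟩
    · exact absurd h2 (not_lt.2 h3)
    · exact h2 h3
  have hav : ¬ ((v.asIdeal : Set (𝓞 E)) ⊆ ⋃ σ ∈ ((Finset.univ : Finset (E →+* ℂ_[p])) : Set (E →+* ℂ_[p])),
      ((PI σ : Ideal (𝓞 E)) : Set (𝓞 E))) := by
    intro h
    rw [Ideal.subset_union_prime (Classical.arbitrary _) (Classical.arbitrary _) (fun σ _ _ _ => PI_prime σ)] at h
    obtain ⟨σ, -, h⟩ := h
    exact hne σ h
  rw [Set.not_subset] at hav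
  obtain ⟨a, hav, ha⟩ := hav
  have ha1 : ∀ σ : E →+* ℂ_[p], ‖σ (a : E)‖ = 1 := by
    intro σ
    refine le_antisymm (norm_int_le σ a) (not_lt.1 fun h => ha ?_)
    rw [Set.mem_iUnion₂]
    exact ⟨σ, by simp, h⟩
  have hnorm : ‖algebraMap ℚ ℂ_[p] (Algebra.norm ℚ (a : E))‖ = 1 := by
    rw [Algebra.norm_eq_prod_embeddings ℚ ℂ_[p] (a : E), norm_prod]
    exact Finset.prod_eq_one fun τ _ => ha1 τ.toRingHom
  obtain ⟨n, hn⟩ : ∃ n : ℕ, n = Ideal.absNorm (Ideal.span {a}) := ⟨_, rfl⟩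
  have hnv : (n : 𝓞 E) ∈ v.asIdeal := by
    have h1 := Ideal.absNorm_mem (Ideal.span {a})
    rw [← hn] at h1
    exact (Ideal.span_singleton_le_iff_mem _).2 hav h1
  have hpn : p ∣ n := by
    by_contra h
    have h1 : Nat.Coprime p n := (Nat.Prime.coprime_iff_not_dvd Fact.out).2 h
    obtain ⟨x, y, hxy⟩ := (Nat.isCoprime_iff_coprime.2 h1)
    have h2 := congrArg (fun z : ℤ => (z : 𝓞 E)) hxy
    push_cast at h2
    apply v.isPrime.ne_top
    rw [Ideal.eq_top_iff_one, ← h2]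
    exact add_mem (Ideal.mul_mem_left _ _ hv) (Ideal.mul_mem_left _ _ hnv)
  have h1 : ‖algebraMap ℚ ℂ_[p] (Algebra.norm ℚ (a : E))‖ = ‖(n : ℂ_[p])‖ := by
    rw [hn, Ideal.absNorm_span_singleton, ← Algebra.coe_norm_int, map_intCast]
    rcases Int.natAbs_eq (Algebra.norm ℤ a) with h | h
    · have h2 := congrArg (fun z : ℤ => (z : ℂ_[p])) h
      simp only [Int.cast_natCast] at h2
      rw [← h2]
    · have h2 := congrArg (fun z : ℤ => (z : ℂ_[p])) h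
      simp only [Int.cast_neg, Int.cast_natCast] at h2
      rw [← norm_neg ((((Algebra.norm ℤ) a).natAbs : ℕ) : ℂ_[p]), ← h2]
  rw [hnorm] at h1
  have h2 := norm_dvd_le hpn
  rw [← h1] at h2
  exact absurd h2 (not_le.2 pinv_lt)

/-- **Job CR.** -/
theorem cr : J_CR := by
  intro hAB p _ E _ _ S hS k a b
  classical
  have hcop : ∀ σ ∈ S, ∀ τ, τ ∉ S → IsCoprime (PI σ) (PI τ) := by
    intro σ hσ τ hτ
    rw [Ideal.isCoprime_iff_sup_eq]
    refine (PI_max σ).coprime_of_ne (PI_max τ) ?_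
    intro h
    apply hτ
    refine hS σ hσ τ (hAB p E σ τ fun x hx => ?_)
    have h1 : x ∈ PI τ := by
      rw [← h]
      exact hx
    exact h1
  obtain ⟨I, hI⟩ : ∃ I : Ideal (𝓞 E), I = ∏ σ ∈ Finset.univ.filter (fun σ : E →+* ℂ_[p] => σ ∈ S), PI σ := ⟨_, rfl⟩
  obtain ⟨J, hJ⟩ : ∃ J : Ideal (𝓞 E), J = ∏ σ ∈ Finset.univ.filter (fun σ : E →+* ℂ_[p] => σ ∉ S), PI σ := ⟨_, rfl⟩
  have hIJ : IsCoprime I J := by
    rw [hI, hJ]
    refine IsCoprime.prod_left fun σ hσ => IsCoprime.prod_right fun τ hτ => ?_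
    exact hcop σ (Finset.mem_filter.1 hσ).2 τ (Finset.mem_filter.1 hτ).2
  have hε : 0 < ((p : ℝ)⁻¹) ^ k := pow_pos pinv_pos k
  choose n₀ hn₀ using fun σ : E →+* ℂ_[p] => PI_pow σ _ hε
  obtain ⟨n, hn⟩ : ∃ n : ℕ, ∀ σ : E →+* ℂ_[p], n₀ σ ≤ n :=
    ⟨∑ σ, n₀ σ, fun σ => Finset.single_le_sum (f := n₀) (fun _ _ => Nat.zero_le _) (Finset.mem_univ σ)⟩
  have hIn : ∀ σ ∈ S, ∀ x ∈ I ^ n, ‖σ (x : E)‖ ≤ ((p : ℝ)⁻¹) ^ k := by
    intro σ hσ x hx
    refine hn₀ σ n (hn σ) x (Ideal.pow_right_mono ?_ n hx)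
    rw [hI]
    exact Ideal.le_of_dvd (Finset.dvd_prod_of_mem _ (Finset.mem_filter.2 ⟨Finset.mem_univ _, hσ⟩))
  have hJn : ∀ σ, σ ∉ S → ∀ x ∈ J ^ n, ‖σ (x : E)‖ ≤ ((p : ℝ)⁻¹) ^ k := by
    intro σ hσ x hx
    refine hn₀ σ n (hn σ) x (Ideal.pow_right_mono ?_ n hx)
    rw [hJ]
    exact Ideal.le_of_dvd (Finset.dvd_prod_of_mem _ (Finset.mem_filter.2 ⟨Finset.mem_univ _, hσ⟩))
  have h1 : IsCoprime (I ^ n) (J ^ n) := hIJ.pow
  rw [Ideal.isCoprime_iff_exists] at h1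
  obtain ⟨u, hu, w, hw, huw⟩ := h1
  refine ⟨a * w + b * u, fun σ hσ => ?_, fun σ hσ => ?_⟩
  · have h2 : ((a * w + b * u : 𝓞 E) : E) - (a : E) = (((b - a) * u : 𝓞 E) : E) := by
      have h3 : a * w + b * u - a = (b - a) * u := by
        have : w = 1 - u := by rw [← huw]; ring
        rw [this]
        ring
      rw [← h3]
      simp
    rw [h2]
    exact hIn σ hσ _ (Ideal.mul_mem_left _ _ hu)
  · have h2 : ((a * w + b * u : 𝓞 E) : E) - (b : E) = (((a - b) * w : 𝓞 E) : E) := by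
      have h3 : a * w + b * u - b = (a - b) * w := by
        have : u = 1 - w := by rw [← huw]; ring
        rw [this]
        ring
      rw [← h3]
      simp
    rw [h2]
    exact hJn σ hσ _ (Ideal.mul_mem_left _ _ hw)

end Pool.Agent.Q285.SG
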