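import Pool.Agent.Q160.SG.Stm

/-! # Project SG, jobs V and DROP -/

set_option autoImplicit false

namespace Pool.Agent.Q285.SG

open Finset Pool.Agent.Q160.SG

theorem mem_V {z m : ℕ} {x : ℤ} : x ∈ V z m ↔ (-(m : ℤ) ≤ x ∧ x ≤ m) ∧ (x = 0 → z = 1) := by
  unfold V
  rw [mem_filter, mem_Icc]

theorem V_succ (z m : ℕ) : V z (m + 1) = insert (-((m : ℤ) + 1)) (insert ((m : ℤ) + 1) (V z m)) := by
  ext x
  rw [mem_insert, mem_insert, mem_V, mem_V]
  push_cast
  constructor
  · rintro ⟨⟨h1, h2⟩, h3⟩
    by_cases h4 : x = -((m : ℤ) + 1)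
    · exact Or.inl h4
    · by_cases h5 : x = (m : ℤ) + 1
      · exact Or.inr (Or.inl h5)
      · exact Or.inr (Or.inr ⟨⟨by omega, by omega⟩, h3⟩)
  · rintro (h | h | ⟨⟨h1, h2⟩, h3⟩)
    · refine ⟨⟨by omega, by omega⟩, fun h0 => by omega⟩
    · refine ⟨⟨by omega, by omega⟩, fun h0 => by omega⟩
    · exact ⟨⟨by omega, by omega⟩, h3⟩

theorem t_V : J_V := by
  refine ⟨?_, V_succ, ?_, ?_, ?_⟩
  · intro z m hz
    induction m with
    | zero =>
      by_cases h : z = 1
      · have e : V z 0 = {0} := by
          ext x
          rw [mem_V, mem_singleton]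
          push_cast
          constructor
          · rintro ⟨⟨h1, h2⟩, -⟩
            omega
          · intro h1
            exact ⟨⟨by omega, by omega⟩, fun _ => h⟩
        rw [e, card_singleton]
        omega
      · have e : V z 0 = ∅ := by
          rw [eq_empty_iff_forall_notMem]
          intro x hx
          rw [mem_V] at hx
          push_cast at hx
          exact h (hx.2 (by omega))
        rw [e, card_empty]
        omega
    | succ m ih =>
      rw [V_succ, card_insert_of_notMem, card_insert_of_notMem, ih]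
      · omega
      · intro h
        rw [mem_V] at h
        omega
      · intro h
        rw [mem_insert, mem_V] at h
        omega
  · intro z m x hx
    rw [mem_V] at hx
    exact abs_le.2 hx.1
  · intro z
    apply card_le_one.2
    intro a ha b hb
    rw [mem_V] at ha hb
    push_cast at ha hb
    omega
  · intro z m m' h x hx
    rw [mem_V] at hx ⊢
    have : (m : ℤ) ≤ m' := by exact_mod_cast h
    exact ⟨⟨by omega, by omega⟩, hx.2⟩

theorem mem_dropMax {K : Finset ℤ} {x : ℤ} : x ∈ dropMax K ↔ x ∈ K ∧ ∃ y ∈ K, x < y := by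
  unfold dropMax
  rw [mem_filter]

theorem mem_dropMin {K : Finset ℤ} {x : ℤ} : x ∈ dropMin K ↔ x ∈ K ∧ ∃ y ∈ K, y < x := by
  unfold dropMin
  rw [mem_filter]

theorem t_DROP : J_DROP := by
  intro i q hq
  have hb : ∀ x ∈ q, -(i : ℤ) ≤ x ∧ x ≤ i := fun x hx => abs_le.1 (hq x hx)
  refine ⟨?_, ?_, ?_, ?_, ?_, ?_⟩
  · ext x
    rw [mem_dropMin, mem_insert]
    constructor
    · rintro ⟨h1 | h1, y, h2, h3⟩
      · rcases mem_insert.1 h2 with h4 | h4
        · omega
        · have := hb y h4
          omega
      · exact h1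
    · intro h
      have := hb x h
      exact ⟨Or.inr h, _, mem_insert_self _ _, by omega⟩
  · ext x
    rw [mem_dropMax, mem_insert]
    constructor
    · rintro ⟨h1 | h1, y, h2, h3⟩
      · rcases mem_insert.1 h2 with h4 | h4
        · omega
        · have := hb y h4
          omega
      · exact h1
    · intro h
      have := hb x h
      exact ⟨Or.inr h, _, mem_insert_self _ _, by omega⟩
  · rintro ⟨p, hp⟩
    ext x
    rw [mem_dropMax, mem_insert, mem_insert, mem_dropMax]
    constructor
    · rintro ⟨h1 | h1, y, h2, h3⟩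
      · exact Or.inl h1
      · rcases mem_insert.1 h2 with h4 | h4
        · have := hb x h1
          omega
        · exact Or.inr ⟨h1, y, h4, h3⟩
    · rintro (h1 | ⟨h1, y, h2, h3⟩)
      · have := hb p hp
        exact ⟨Or.inl h1, p, mem_insert_of_mem hp, by omega⟩
      · exact ⟨Or.inr h1, y, mem_insert_of_mem h2, h3⟩
  · rintro ⟨p, hp⟩
    ext x
    rw [mem_dropMin, mem_insert, mem_insert, mem_dropMin]
    constructor
    · rintro ⟨h1 | h1, y, h2, h3⟩
      · exact Or.inl h1
      · rcases mem_insert.1 h2 with h4 | h4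
        · have := hb x h1
          omega
        · exact Or.inr ⟨h1, y, h4, h3⟩
    · rintro (h1 | ⟨h1, y, h2, h3⟩)
      · have := hb p hp
        exact ⟨Or.inl h1, p, mem_insert_of_mem hp, by omega⟩
      · exact ⟨Or.inr h1, y, mem_insert_of_mem h2, h3⟩
  · ext x
    rw [mem_dropMax, mem_insert, mem_insert, mem_insert]
    constructor
    · rintro ⟨h1 | h1 | h1, y, h2, h3⟩
      · exact Or.inl h1
      · rcases mem_insert.1 h2 with h4 | h4
        · omega
        · rcases mem_insert.1 h4 with h5 | h5
          · omega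
          · have := hb y h5
            omega
      · exact Or.inr h1
    · rintro (h1 | h1)
      · exact ⟨Or.inl h1, _, mem_insert_of_mem (mem_insert_self _ _), by omega⟩
      · have := hb x h1
        exact ⟨Or.inr (Or.inr h1), _, mem_insert_of_mem (mem_insert_self _ _), by omega⟩
  · ext x
    rw [mem_dropMin, mem_insert, mem_insert]
    constructor
    · rintro ⟨h1 | h1 | h1, y, h2, h3⟩
      · rcases mem_insert.1 h2 with h4 | h4
        · omega
        · rcases mem_insert.1 h4 with h5 | h5
          · omega
          · have := hb y h5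
            omega
      · exact Or.inl h1
      · exact Or.inr h1
    · rintro (h1 | h1)
      · exact ⟨Or.inr (Or.inl h1), _, mem_insert_self _ _, by omega⟩
      · have := hb x h1
        exact ⟨Or.inr (Or.inr h1), _, mem_insert_self _ _, by omega⟩

end Pool.Agent.Q285.SG
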